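import Mathlib

/-!
Project KM (helper51): MP_d197f9_co, circuit partitions of matching extendable infinite matroids.

MAIN: r regular, all circuits of M of size < r, M is r-matching extendable => M has a perfect
matching (ground sets of every size, ZFC).  (Then for every kappa >= r too.)
Known only for r = omega.

All sizes are measured as `Cardinal.mk X < l` with l REGULAR.
-/

namespace Pool.Agent.L7h51.KM

open Set Cardinal

universe u

/-- A matching of a matroid: a set of pairwise disjoint circuits. -/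
def IsMatching {α : Type u} (M : Matroid α) (A : Set (Set α)) : Prop :=
  (∀ C ∈ A, M.IsCircuit C) ∧ A.PairwiseDisjoint id

/-- The matroid has a perfect matching: its ground set is partitioned into circuits. -/
def HasPerfectMatching {α : Type u} (M : Matroid α) : Prop :=
  ∃ A : Set (Set α), IsMatching M A ∧ ⋃₀ A = M.E

/-- `M` is `c`-matching extendable: for every matching `A` with fewer than `c` members and every
element `e` of the ground set outside `⋃ A` there is a circuit containing `e` and disjoint from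
`⋃ A`. -/
def MatchingExtendable {α : Type u} (c : Cardinal.{u}) (M : Matroid α) : Prop :=
  ∀ A : Set (Set α), IsMatching M A → Cardinal.mk A < c → ∀ e ∈ M.E \ ⋃₀ A,
    ∃ C, M.IsCircuit C ∧ e ∈ C ∧ Disjoint C (⋃₀ A)

/-- All circuits of `M` have fewer than `c` elements. -/
def SmallCircuits {α : Type u} (c : Cardinal.{u}) (M : Matroid α) : Prop :=
  ∀ C, M.IsCircuit C → Cardinal.mk C < c

/-- Every cocircuit with fewer than `l` elements that meets `U` is contained in `U`. -/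
def Good {α : Type u} (l : Cardinal.{u}) (M : Matroid α) (U : Set α) : Prop :=
  ∀ D, M.IsCocircuit D → Cardinal.mk D < l → (D ∩ U).Nonempty → D ⊆ U

/-- [F2] 20 lines.  E minus a hyperplane through the closure of S.
(Extend a basis I of S by e to a base B; the flat closure(B \ {e}) is a hyperplane;
or: dual of the fundamental circuit.  See `Matroid.IsBase...`, `fundCocircuit`:
D = fundCocircuit of e w.r.t. B is disjoint from closure (B \ {e}).) -/
def S_F2 : Prop := ∀ (α : Type u) (M : Matroid α) (S : Set α) (e : α), S ⊆ M.E → e ∈ M.E →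
  e ∉ M.closure S → ∃ D, M.IsCocircuit D ∧ e ∈ D ∧ Disjoint D (M.closure S)

/-- [F3] 40 lines.  E \ D is a hyperplane H; I a basis of H; I + y is a base; e is not in
closure I; C = fundamental circuit of e with respect to I + y: contains y (else e in closure I)
and C is contained in I + y + e, so C inter D = {e, y}. -/
def S_F3 : Prop := ∀ (α : Type u) (M : Matroid α) (D : Set α) (e y : α), M.IsCocircuit D →
  e ∈ D → y ∈ D → e ≠ y → ∃ C, M.IsCircuit C ∧ C ∩ D = {e, y}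

/-- [SK] 40 lines.  Skew lemma.  P0 a basis of P, extended to a basis P1 of closure G.
P1 ∪ Q is independent (exchange of bases of closure G; contraction of G and of P1 agree), P1 and Q
are disjoint (Q misses closure G).  Then
closure(P ∪ Q) ∩ closure G = closure(P0 ∪ Q) ∩ closure P1 = closure((P0 ∪ Q) ∩ P1) = closure P0
by `Matroid.Indep.closure_inter_eq_inter_closure`. -/
def S_SK : Prop := ∀ (α : Type u) (M : Matroid α) (G Q P : Set α), M.Indep (G ∪ Q) →
  Disjoint G Q → P ⊆ M.closure G → M.closure (P ∪ Q) ∩ M.closure G ⊆ M.closure P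

/-- [RL] 40 lines.  For x in X: x in J, or the fundamental circuit of x with respect to J minus x
(size < r ≤ c).  H = union over x in X: size < c as c is regular. -/
def S_RL : Prop := ∀ (α : Type u) (M : Matroid α) (r c : Cardinal.{u}), c.IsRegular → r ≤ c →
  SmallCircuits r M → ∀ J X : Set α, M.Indep J → X ⊆ M.closure J → Cardinal.mk X < c →
  ∃ H ⊆ J, Cardinal.mk H < c ∧ X ⊆ M.closure H

/-- [DS] 100 lines, may assume S_RL, S_SK.  BA a basis of A, B1 ⊇ BA a base of M, B2 = B1 \ BA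
(⊆ E \ A).  J ⊇ B2 a basis of E \ A, J' ⊇ J a base, K = J \ B2.  By RL there is H ⊆ J', small,
A ⊆ closure H.  Then E = closure (A ∪ B2) ⊆ closure (H ∪ B2), so J' ⊆ H ∪ B2, K ⊆ H small.
By RL there is H' ⊆ B1 small, K ⊆ closure H'.  A' = A ∪ K ∪ H'.
If e ∈ closure (T ∪ (E \ A)) = closure (T ∪ K ∪ B2), use SK with G = BA ∪ H', Q = B2 \ H',
P = T ∪ K ∪ (B2 ∩ H') ⊆ closure G: e ∈ closure P ⊆ closure (T ∪ (A' \ A)). -/
def S_DS : Prop := ∀ (α : Type u) (M : Matroid α) (r c : Cardinal.{u}), c.IsRegular → r ≤ c →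
  SmallCircuits r M → ∀ A ⊆ M.E, Cardinal.mk A < c →
  ∃ A', A ⊆ A' ∧ A' ⊆ M.E ∧ Cardinal.mk A' < c ∧
    ∀ T ⊆ A, ∀ e ∈ A, e ∈ M.closure (T ∪ (M.E \ A)) → e ∈ M.closure (T ∪ (A' \ A))

/-- [REM] 60 lines, may assume S_F2.  A matching `𝒜` of M|(E\U), fewer than r members, Z = ⋃ 𝒜 has
fewer than r elements (r regular), e ∉ U ∪ Z.  If no circuit of M|(E\U) through e avoids Z then
e ∉ closure (E \ U \ Z \ {e}); F2: cocircuit D ∋ e, D ⊆ U ∪ Z ∪ {e}, so D has < l elements.
D not ⊆ U, so D ∩ U = ∅ (Good), D ⊆ Z ∪ {e}; but M is extendable: circuit C ∋ e disjoint from Z,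
C ∩ D = {e}, against `IsCircuit.inter_isCocircuit_ne_singleton`. -/
def S_REM : Prop := ∀ (α : Type u) (M : Matroid α) (r l : Cardinal.{u}), r.IsRegular →
  l.IsRegular → r < l → SmallCircuits r M → MatchingExtendable r M → ∀ U ⊆ M.E,
  Cardinal.mk U < l → Good l M U → MatchingExtendable r (M.restrict (M.E \ U))

/-- [ST1] 80 lines, may assume S_F2.  S = (A \ D₀) ∪ (E \ A').  e ∈ closure S, else F2 gives
D' ∋ e disjoint from S, i.e. D' ⊆ A' and D' ∩ A ⊆ D₀.  S \ D₀ ⊆ E \ D₀ hyperplane without e, so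
e ∉ closure (S \ D₀).  I basis of S \ D₀, I ∪ L basis of S, L ⊆ S ∩ D₀ ⊆ D₀ \ A'.
C = fundamental circuit of e with respect to I ∪ L; it contains some z ∈ L (else e ∈ closure I).
e ∉ closure ((I ∪ L) \ {z}); F2: cocircuit D ∋ e disjoint from closure ((I ∪ L) \ {z}), which
contains S \ D₀.  C ∩ D = {e, z} (C ⊆ I ∪ L ∪ {e}, and C ∩ D is not {e}); D ⊆ A' ∪ D₀. -/
def S_ST1 : Prop := ∀ (α : Type u) (M : Matroid α) (l : Cardinal.{u}) (A A' D₀ : Set α) (e : α),
  ℵ₀ ≤ l → A ⊆ A' → A' ⊆ M.E → Cardinal.mk A' < l → M.IsCocircuit D₀ → Cardinal.mk D₀ < l →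
  e ∈ D₀ → e ∈ A → (¬ ∃ D', M.IsCocircuit D' ∧ D' ⊆ A' ∧ e ∈ D' ∧ D' ∩ A ⊆ D₀) →
  ∃ (D C : Set α) (z : α), M.IsCocircuit D ∧ Cardinal.mk D < l ∧ M.IsCircuit C ∧
    C ∩ D = {e, z} ∧ z ∉ A' ∧ C ∩ A' ⊆ A

/-- [DEL] 100 lines, pure combinatorics (weak Delta system lemma).  Suppose false.  For G small
let S_G ⊆ ι be maximal with the sets W i \ G, i ∈ S_G, pairwise disjoint (Zorn); then S_G has
fewer than l elements, G' = G ∪ ⋃_{i ∈ S_G} W i is small, and for each i ∉ S_G the set W i meets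
G' \ G.  Iterate r.ord times (G_ν = union over ν' < ν of (G_ν')'): the union G* is small and every
i has W i ⊆ G* (else W i meets the r many disjoint sets G_ν' \ G_ν).  Then G = G*, S = univ do it.
-/
def S_DEL : Prop := ∀ (α ι : Type u) (W : ι → Set α) (r l : Cardinal.{u}), r.IsRegular →
  l.IsRegular → r < l → Cardinal.mk ι = l → (∀ i, Cardinal.mk (W i) < r) →
  ∃ (G : Set α) (S : Set ι), Cardinal.mk G < l ∧ Cardinal.mk S = l ∧
    S.PairwiseDisjoint (fun i => W i \ G)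

/-- [IND] 50 lines, may assume S_SK.  A circuit in the union meets some Q i (G is independent);
q ∈ circuit ∩ Q i; q ∈ closure (G ∪ (Q i \ {q}) ∪ ⋃_{j ≠ i} (W j \ G)); by SK with
G' = G ∪ W i, Q' = ⋃_{j≠i} (W j \ G), P = G ∪ (Q i \ {q}): q ∈ closure (G ∪ (Q i \ {q})),
against the independence of G ∪ Q i. -/
def S_IND : Prop := ∀ (α ι : Type u) (M : Matroid α) (B G : Set α) (W Q : ι → Set α)
  (S : Set ι), M.Indep B → G ⊆ B → (∀ i, W i ⊆ B) → S.PairwiseDisjoint (fun i => W i \ G) →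
  (∀ i ∈ S, M.Indep (G ∪ Q i)) → (∀ i ∈ S, Disjoint G (Q i)) →
  (∀ i ∈ S, Q i ⊆ M.closure (W i)) → M.Indep (G ∪ ⋃ i ∈ S, Q i)

/-- [STX] 150 lines, may assume S_RL, S_DEL, S_IND.  Y i = C i \ A.  Y i ∩ Ai i = ∅, the Y i are
pairwise disjoint, D i ∩ Y i = {z i}, D i ∩ Y j = ∅ for i < j.  B a base of M; RL (c = r):
W i ⊆ B with fewer than r elements, C i ⊆ closure (W i); RL (c = l): HA ⊆ B small with
A ⊆ closure HA.  DEL: G₀, S.  G = (G₀ ∩ B) ∪ HA.  For i ∈ S let Q i ⊆ (Y i \ {z i}) \ G be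
maximal with G ∪ Q i independent: then Y i \ {z i} ⊆ closure (G ∪ Q i), hence (A ⊆ closure G)
z i ∈ closure (G ∪ Q i).  IND: G ∪ ⋃ Q i independent.
Claim: R = ⋃_{i ∈ S} ({z i} ∪ Q i) is independent: a circuit K ⊆ R, i = least index in S with
K ∩ ({z i} ∪ Q i) ≠ ∅; if z i ∈ K then K ∩ D i = {z i}, impossible; else some q ∈ K ∩ Q i lies in
closure (K \ {q}) ⊆ closure (G ∪ (⋃ Q j) \ {q}), against IND.
Base J ⊇ R; RL: H ⊆ J small with G ⊆ closure H; some i ∈ S has z i ∉ H (the z i are distinct);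
z i ∈ closure (H ∪ Q i), H ∪ Q i ⊆ J \ {z i}: contradiction. -/
def S_STX : Prop := ∀ (α : Type u) (M : Matroid α) (r l : Cardinal.{u}), r.IsRegular →
  l.IsRegular → r < l → SmallCircuits r M → ∀ (ι : Type u) [LinearOrder ι] [WellFoundedLT ι],
  Cardinal.mk ι = l → ∀ (A : Set α) (Ai D C : ι → Set α) (e z : ι → α), A ⊆ M.E →
  Cardinal.mk A < l → (∀ i, A ⊆ Ai i) → (∀ i, M.IsCocircuit (D i)) → (∀ i, M.IsCircuit (C i)) →
  (∀ i, C i ∩ D i = {e i, z i}) → (∀ i, e i ∈ A) → (∀ i, z i ∉ Ai i) →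
  (∀ i, C i ∩ Ai i ⊆ A) → (∀ i j, i < j → D i ∪ C i ⊆ Ai j) → False

/-- [ST] 80 lines, may assume S_ST1, S_STX.  Otherwise every small A' ⊇ A fails and ST1 gives
D, C, e, z (choice functions of A').  On ι = l.ord.toType define by well-founded recursion
Ai i = A ∪ ⋃_{j < i} (Ai j ∪ D (Ai j) ∪ C (Ai j)); all are small (l regular); contradiction to STX.
-/
def S_ST : Prop := ∀ (α : Type u) (M : Matroid α) (r l : Cardinal.{u}), r.IsRegular →
  l.IsRegular → r < l → SmallCircuits r M → ∀ A ⊆ M.E, Cardinal.mk A < l →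
  ∃ A', A ⊆ A' ∧ A' ⊆ M.E ∧ Cardinal.mk A' < l ∧
    ∀ D, M.IsCocircuit D → Cardinal.mk D < l → ∀ e ∈ D ∩ A,
      ∃ D', M.IsCocircuit D' ∧ D' ⊆ A' ∧ e ∈ D' ∧ D' ∩ A ⊆ D

/-- [HULL] 80 lines, may assume S_ST, S_F3.  On r.ord.toType: A_ν = A ∪ ⋃_{ν' < ν} st (A_ν'),
A' = ⋃ A_ν.  If D is small, e ∈ D ∩ A', z ∈ D \ A': C with C ∩ D = {e, z} (F3); X = C ∩ A' has
fewer than r elements, so X ⊆ A_ν for some ν (r regular); st gives D' ⊆ A' with e ∈ D',
D' ∩ A_ν ⊆ D; D' ∩ C = D' ∩ X = {e}: impossible. -/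
def S_HULL : Prop := ∀ (α : Type u) (M : Matroid α) (r l : Cardinal.{u}), r.IsRegular →
  l.IsRegular → r < l → SmallCircuits r M → ∀ A ⊆ M.E, Cardinal.mk A < l →
  ∃ A', A ⊆ A' ∧ A' ⊆ M.E ∧ Cardinal.mk A' < l ∧ Good l M A'

/-- [STEP] 120 lines, may assume S_DS.  N = M ↾ (E \ U).  On r.ord.toType:
T_ν = U ∪ X ∪ ⋃_{ν' < ν} (hull (T_ν') ∪ ds (T_ν' \ U)), hull from the hypothesis on 𝒢, ds from DS in
N.  T = ⋃ T_ν = union of the hulls, in 𝒢.  Extendable: 𝒜 a matching of M|(T\U), fewer than r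
members, Z = ⋃ 𝒜 (fewer than r elements), e ∈ T \ U \ Z.  N is extendable:
e ∈ closure ((E \ U) \ Z \ {e}).  Z ∪ {e} ⊆ T_ν for some ν; A = T_ν \ U; DS with
A \ Z \ {e}: e ∈ closure ((A \ Z \ {e}) ∪ (ds A \ A)) ⊆ closure ((T \ U) \ Z \ {e}),
so there is a circuit through e in (T \ U) \ Z. -/
def S_STEP : Prop := ∀ (α : Type u) (M : Matroid α) (r l : Cardinal.{u}), r.IsRegular →
  l.IsRegular → r < l → SmallCircuits r M → ∀ U ⊆ M.E, Cardinal.mk U < l →
  MatchingExtendable r (M.restrict (M.E \ U)) → ∀ X ⊆ M.E, Cardinal.mk X < l →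
  ∀ 𝒢 : Set (Set α), (∀ 𝒮 ⊆ 𝒢, ⋃₀ 𝒮 ∈ 𝒢) →
  (∀ T ⊆ M.E, Cardinal.mk T < l → ∃ G ∈ 𝒢, T ⊆ G ∧ G ⊆ M.E ∧ Cardinal.mk G < l) →
  ∃ T ∈ 𝒢, U ∪ X ⊆ T ∧ T ⊆ M.E ∧ Cardinal.mk T < l ∧ MatchingExtendable r (M.restrict (T \ U))

/-- [GR] 80 lines.  Greedy: enumerate E by r.ord.toType (surjection onto E, if E is nonempty);
at step ν, if x_ν is not covered by the circuits chosen before, add a circuit through x_ν disjoint
from them. -/
def S_GR : Prop := ∀ (α : Type u) (M : Matroid α) (r : Cardinal.{u}), ℵ₀ ≤ r →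
  Cardinal.mk M.E ≤ r → MatchingExtendable r M → HasPerfectMatching M

/-- [FIL] 40 lines.  Union of the perfect matchings of the slices. -/
def S_FIL : Prop := ∀ (α : Type u) (M : Matroid α) (ι : Type u) [LinearOrder ι]
  [WellFoundedLT ι] (T : ι → Set α), (⋃ i, T i) = M.E →
  (∀ i, HasPerfectMatching (M.restrict (T i \ ⋃ j ∈ {j | j < i}, T j))) → HasPerfectMatching M

/-- [UCL] 40 lines.  Closure under a small-set-valued map (iterate ω times). -/
def S_UCL : Prop := ∀ (α : Type u) (c : Cardinal.{u}), c.IsRegular → ℵ₀ < c →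
  ∀ R : α → Set α, (∀ a, Cardinal.mk (R a) < c) → ∀ T : Set α, Cardinal.mk T < c →
  ∃ T', T ⊆ T' ∧ Cardinal.mk T' < c ∧ ∀ a ∈ T', R a ⊆ T'

/-- the induction step at the size of `M` -/
def Below {α : Type u} (r : Cardinal.{u}) (M : Matroid α) : Prop :=
  ∀ N : Matroid α, Cardinal.mk N.E < Cardinal.mk M.E → SmallCircuits r N →
    MatchingExtendable r N → HasPerfectMatching N

/-- [REG] 100 lines, may assume S_REM, S_HULL, S_STEP, S_FIL.  l = size of E, regular.
ι = l.ord.toType in bijection with E (x).  T i = STEP (U i, {x i}), U i = ⋃_{j<i} T j (small, and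
Good as a union of Good sets; so M|(E \ U i) is extendable by REM); 𝒢 = the Good subsets of E
(closed under unions; hull property = HULL).  FIL and the induction hypothesis. -/
def S_REG : Prop := ∀ (α : Type u) (M : Matroid α) (r : Cardinal.{u}), r.IsRegular →
  r < Cardinal.mk M.E → (Cardinal.mk M.E).IsRegular → SmallCircuits r M →
  MatchingExtendable r M → Below r M → HasPerfectMatching M

/-- [SING] 250 lines, may assume S_REM, S_HULL, S_STEP, S_FIL, S_UCL.  l = size of E, singular,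
χ = cof l < l, ι = χ.ord.toType, μ i < l monotone, r ≤ μ i, χ ≤ μ i, cofinal in l; E = ⋃ E i,
E i of size ≤ μ i.  m i = sup_{j<i} μ j (max with r).  For a ∈ E, i ∈ ι: h i a = HULL of {a} at
(succ (m i)): size ≤ m i; written as the union of sets h i a j, j < i, size of h i a j ≤ μ j,
increasing in j (enumerate h i a by ordinals below (m i).ord and cut at (μ j).ord).
R j a = ⋃_{i > j} h i a j, size ≤ μ j.  𝒢 j = {T | ∀ a ∈ T, R j a ⊆ T}: closed under unions; hulls
by UCL (c = succ (μ j)).  T j = STEP at l := succ (μ j) (U j, E j), 𝒢 := 𝒢 j, U j = ⋃_{k<j} T k.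
|U i| ≤ m i.  U i is Good (succ (m i)): D small, a ∈ D ∩ U i, a ∈ T j: D ⊆ h i a =
⋃_{j ≤ j' < i} h i a j' ⊆ ⋃ T j' ⊆ U i.  So REM applies, then FIL and the induction hypothesis. -/
def S_SING : Prop := ∀ (α : Type u) (M : Matroid α) (r : Cardinal.{u}), r.IsRegular →
  r < Cardinal.mk M.E → ¬ (Cardinal.mk M.E).IsRegular → SmallCircuits r M →
  MatchingExtendable r M → Below r M → HasPerfectMatching M

/-- [MAIN] from S_GR, S_REG, S_SING by induction on the size of E. -/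
def S_MAIN : Prop := ∀ (α : Type u) (M : Matroid α) (r : Cardinal.{u}), r.IsRegular →
  SmallCircuits r M → MatchingExtendable r M → HasPerfectMatching M

end Pool.Agent.L7h51.KM
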