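import Mathlib
import Pool.Agent.L7h51.KM.Stm

namespace Pool.Agent.L7h51.KM

open Set Cardinal

universe u

theorem s_MAIN (hG : S_GR.{u}) (hR : S_REG.{u}) (hS : S_SING.{u}) : S_MAIN.{u} := by
  intro α M r hr hc he
  have key : ∀ c : Cardinal.{u}, ∀ M : Matroid α, Cardinal.mk M.E = c → SmallCircuits r M →
      MatchingExtendable r M → HasPerfectMatching M := by
    intro c
    induction c using Cardinal.lt_wf.induction with
    | _ c ih =>
      intro M hM hc he
      have hb : Below r M := by
        intro N hN hcN heN
        exact ih (Cardinal.mk N.E) (by rw [← hM]; exact hN) N rfl hcN heN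
      rcases le_or_gt (Cardinal.mk M.E) r with h | h
      · exact hG α M r hr.aleph0_le h he
      · by_cases h2 : (Cardinal.mk M.E).IsRegular
        · exact hR α M r hr h h2 hc he hb
        · exact hS α M r hr h h2 hc he hb
  exact key _ M rfl hc he

end Pool.Agent.L7h51.KM
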