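import Mathlib
import Pool.Agent.L7h51.KM.Stm

namespace Pool.Agent.L7h51.KM

open Set Cardinal

universe u

theorem cofi (l r : Cardinal.{u}) (hr : ℵ₀ ≤ r) (hrl : r < l) (hs : ¬ l.IsRegular) :
    ∃ (ι : Type u) (_ : LinearOrder ι) (_ : WellFoundedLT ι) (μ : ι → Cardinal.{u}),
      (∀ i, μ i < l) ∧ (∀ i, r ≤ μ i) ∧ (∀ i, Cardinal.mk ι ≤ μ i) ∧ Monotone μ ∧
      (∀ c < l, ∃ i, c < μ i) := by
  have hl : ℵ₀ ≤ l := hr.trans hrl.le
  have hχ : l.ord.cof < l := by
    by_contra h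
    exact hs ⟨hl, not_lt.1 h⟩
  obtain ⟨ι', f, hf, hι'⟩ := Ordinal.exists_lsub_cof l.ord
  set χ := l.ord.cof with hχd
  have hχ0 : ℵ₀ ≤ χ := by
    rw [hχd, Ordinal.aleph0_le_cof]
    exact Cardinal.isSuccLimit_ord hl
  have heq : Cardinal.mk χ.ord.ToType = Cardinal.mk ι' := by
    rw [Cardinal.mk_ord_toType, hι']
  obtain ⟨eq⟩ := Cardinal.eq.1 heq
  have hg : ∀ i : χ.ord.ToType, f (eq i) < l.ord := by
    intro i
    rw [← hf]
    exact Ordinal.lt_lsub f (eq i)
  have hIic : ∀ i : χ.ord.ToType, Cardinal.mk (Set.Iic i) < χ := by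
    intro i
    have h1 : (Set.Iic i) = insert i (Set.Iio i) := by
      ext x
      simp [le_iff_eq_or_lt]
    rw [h1]
    refine lt_of_le_of_lt (Cardinal.mk_insert_le) ?_
    refine Cardinal.add_lt_of_lt hχ0 ?_ (lt_of_lt_of_le Cardinal.one_lt_aleph0 hχ0)
    exact Cardinal.mk_Iio_toType_ord_lt i
  have hsup : ∀ i : χ.ord.ToType, (⨆ j : Set.Iic i, (f (eq j.1)).card) < l := by
    intro i
    refine Cardinal.iSup_lt_of_lt_cof_ord (hIic i) ?_
    intro j
    exact Cardinal.lt_ord.1 (hg j.1)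
  refine ⟨χ.ord.ToType, inferInstance, inferInstance,
    fun i => (⨆ j : Set.Iic i, (f (eq j.1)).card) ⊔ (r ⊔ χ), ?_, ?_, ?_, ?_, ?_⟩
  · intro i
    exact max_lt (hsup i) (max_lt hrl hχ)
  · intro i
    exact le_max_of_le_right (le_max_left _ _)
  · intro i
    rw [Cardinal.mk_ord_toType]
    exact le_max_of_le_right (le_max_right _ _)
  · intro i j hij
    refine max_le_max ?_ le_rfl
    refine ciSup_le' ?_
    intro k
    exact le_ciSup (f := fun j' : Set.Iic j => (f (eq j'.1)).card)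
      (Cardinal.bddAbove_range _) ⟨k.1, le_trans k.2 hij⟩
  · intro c hc
    have hc1 : Order.succ c < l := by
      rcases lt_or_eq_of_le (Order.succ_le_of_lt hc) with h | h
      · exact h
      · exfalso
        rcases lt_or_ge c ℵ₀ with h0 | h0
        · have : Order.succ c < ℵ₀ := Cardinal.isSuccLimit_aleph0.succ_lt h0
          exact absurd hl (not_le.2 (h ▸ this))
        · exact hs (h ▸ Cardinal.isRegular_succ h0)
    have h2 : (Order.succ c).ord < Ordinal.lsub f := by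
      rw [hf]
      exact Cardinal.ord_lt_ord.2 hc1
    rw [Ordinal.lt_lsub_iff] at h2
    obtain ⟨i', hi'⟩ := h2
    refine ⟨eq.symm i', lt_of_lt_of_le (Order.lt_succ c) (le_max_of_le_left ?_)⟩
    have h3 : Order.succ c ≤ (f i').card := by
      have := Ordinal.card_le_card hi'
      simpa using this
    refine h3.trans ?_
    have := le_ciSup (f := fun j' : Set.Iic (eq.symm i') => (f (eq j'.1)).card)
      (Cardinal.bddAbove_range _) ⟨eq.symm i', Set.mem_Iic.2 le_rfl⟩
    simpa using this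

end Pool.Agent.L7h51.KM
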