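import Mathlib
import Pool.Agent.L7h51.KM.Stm

namespace Pool.Agent.L7h51.KM

open Set Cardinal

universe u

theorem spl {α : Type u} (S : Set α) (m : Cardinal.{u}) (h : Cardinal.mk S ≤ m) :
    ∃ φ : α → Ordinal.{u}, (∀ x ∈ S, (φ x).card < m) ∧
      ∀ c : Cardinal.{u}, Cardinal.mk {x | x ∈ S ∧ (φ x).card < c} ≤ c := by
  classical
  have h1 : Cardinal.mk S ≤ Cardinal.mk m.ord.ToType := by
    rw [Cardinal.mk_ord_toType]; exact h
  obtain ⟨f⟩ := (Cardinal.le_def _ _).1 h1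
  let φ : α → Ordinal.{u} := fun x =>
    if hx : x ∈ S then Ordinal.typein (α := m.ord.ToType) (· < ·) (f ⟨x, hx⟩) else 0
  have hφ : ∀ x (hx : x ∈ S), φ x = Ordinal.typein (α := m.ord.ToType) (· < ·) (f ⟨x, hx⟩) := by
    intro x hx
    simp [φ, hx]
  refine ⟨φ, ?_, ?_⟩
  · intro x hx
    rw [← Cardinal.lt_ord, hφ x hx]
    exact Ordinal.typein_lt_self _
  · intro c
    have h2 : Cardinal.lift.{u + 1} (Cardinal.mk {x | x ∈ S ∧ (φ x).card < c}) ≤
        Cardinal.lift.{u} (Cardinal.mk (Set.Iio c.ord)) := by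
      refine Cardinal.lift_mk_le'.2 ⟨⟨fun x => ⟨φ x.1, Cardinal.lt_ord.2 x.2.2⟩, ?_⟩⟩
      intro x y hxy
      have h3 : φ x.1 = φ y.1 := congrArg Subtype.val hxy
      rw [hφ x.1 x.2.1, hφ y.1 y.2.1] at h3
      have h4 := f.injective ((Ordinal.typein_injective _) h3)
      exact Subtype.ext (congrArg (fun t : S => t.1) h4)
    rw [Cardinal.mk_Iio_ordinal] at h2
    simpa using h2

end Pool.Agent.L7h51.KM
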