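import Mathlib
import Pool.Agent.L7h51.KM.Stm
import Pool.Agent.L7h51.KM.Cofi
import Pool.Agent.L7h51.KM.Spl

namespace Pool.Agent.L7h51.KM

open Set Cardinal

universe u

theorem small_restrict {α : Type u} {M : Matroid α} {r : Cardinal.{u}} (h : SmallCircuits r M)
    (S : Set α) (hS : S ⊆ M.E) : SmallCircuits r (M.restrict S) := by
  intro C hC
  exact h C ((Matroid.restrict_isCircuit_iff hS).1 hC).1

theorem s_SING (hREM : S_REM.{u}) (hHULL : S_HULL.{u}) (hSTEP : S_STEP.{u}) (hFIL : S_FIL.{u})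
    (hUCL : S_UCL.{u}) : S_SING.{u} := by
  classical
  intro α M r hr hrl hs hsc hext hbelow
  have hr0 : ℵ₀ ≤ r := hr.aleph0_le
  obtain ⟨ι, hlin, hwf, μ, hμl, hμr, hμι, hmono, hcof⟩ := cofi (Cardinal.mk M.E) r hr0 hrl hs
  -- the levels
  obtain ⟨m, hm⟩ : ∃ m : ι → Cardinal.{u}, ∀ i, m i = (⨆ j : Set.Iio i, μ j.1) ⊔ r :=
    ⟨_, fun i => rfl⟩
  have hmr : ∀ i, r ≤ m i := fun i => by rw [hm i]; exact le_max_right _ _
  have hmμ : ∀ i, m i ≤ μ i := by
    intro i
    rw [hm i]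
    refine max_le ?_ (hμr i)
    exact ciSup_le' fun j => hmono (le_of_lt j.2)
  have hμm : ∀ i j, j < i → μ j ≤ m i := by
    intro i j hj
    rw [hm i]
    exact le_max_of_le_left (le_ciSup (f := fun j' : Set.Iio i => μ j'.1)
      (Cardinal.bddAbove_range _) ⟨j, hj⟩)
  have hm0 : ∀ i, ℵ₀ ≤ m i := fun i => hr0.trans (hmr i)
  have hregm : ∀ i, (Order.succ (m i)).IsRegular := fun i => Cardinal.isRegular_succ (hm0 i)
  have hregμ : ∀ i, (Order.succ (μ i)).IsRegular :=
    fun i => Cardinal.isRegular_succ (hr0.trans (hμr i))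
  -- hulls, split
  have hsplit : ∀ i, ∀ a ∈ M.E, ∃ f : ι → Set α, (∀ j, j < i → Cardinal.mk (f j) ≤ μ j) ∧
      (∀ j k, j ≤ k → f j ⊆ f k) ∧ (∀ j, f j ⊆ M.E) ∧
      ((∃ j, j < i) → ∃ H : Set α, a ∈ H ∧ Good (Order.succ (m i)) M H ∧
        ∀ x ∈ H, ∃ j, j < i ∧ x ∈ f j) := by
    intro i a ha
    obtain ⟨H, h1, h2, h3, h4⟩ := hHULL α M r (Order.succ (m i)) hr (hregm i)
      (lt_of_le_of_lt (hmr i) (Order.lt_succ _)) hsc {a} (by simpa using ha)
      (by
        rw [Cardinal.mk_singleton]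
        exact lt_of_lt_of_le Cardinal.one_lt_aleph0 ((hm0 i).trans (Order.le_succ _)))
    have h3' : Cardinal.mk H ≤ m i := Order.lt_succ_iff.1 h3
    obtain ⟨φ, hφ1, hφ2⟩ := spl H (m i) h3'
    refine ⟨fun j => {x | x ∈ H ∧ (φ x).card < μ j}, ?_, ?_, ?_, ?_⟩
    · intro j _
      exact hφ2 (μ j)
    · intro j k hjk x hx
      exact ⟨hx.1, lt_of_lt_of_le hx.2 (hmono hjk)⟩
    · intro j x hx
      exact h2 hx.1
    · rintro ⟨j0, hj0⟩
      refine ⟨H, h1 rfl, h4, ?_⟩
      intro x hx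
      have h5 : (φ x).card < m i := hφ1 x hx
      rw [hm i] at h5
      rcases lt_max_iff.1 h5 with h6 | h6
      · obtain ⟨j, hj⟩ := exists_lt_of_lt_ciSup' h6
        exact ⟨j.1, j.2, hx, hj⟩
      · exact ⟨j0, hj0, hx, lt_of_lt_of_le h6 (hμr j0)⟩
  choose! f hf1 hf2 hf3 hf4 using hsplit
  let R : ι → α → Set α := fun j a => if a ∈ M.E then ⋃ i : {i // j < i}, f i.1 a j else ∅
  have hRE : ∀ j a, R j a ⊆ M.E := by
    intro j a
    by_cases ha : a ∈ M.E
    · simp only [R, ha, if_true]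
      exact Set.iUnion_subset fun i => hf3 i.1 a ha j
    · simp [R, ha]
  have hRc : ∀ j a, Cardinal.mk (R j a) < Order.succ (μ j) := by
    intro j a
    by_cases ha : a ∈ M.E
    · simp only [R, ha, if_true]
      refine Order.lt_succ_iff.2 ?_
      refine (Cardinal.mk_iUnion_le _).trans ?_
      have hsup : (⨆ i : {i // j < i}, Cardinal.mk (f i.1 a j)) ≤ μ j :=
        ciSup_le' fun i => hf1 i.1 a ha j i.2
      have hsub : Cardinal.mk {i // j < i} ≤ μ j := (Cardinal.mk_subtype_le _).trans (hμι j)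
      exact (mul_le_mul' hsub hsup).trans (Cardinal.mul_eq_self (hr0.trans (hμr j))).le
    · simp only [R, ha, if_false, Cardinal.mk_emptyCollection]
      exact lt_of_lt_of_le Cardinal.aleph0_pos ((hr0.trans (hμr j)).trans (Order.le_succ _))
  -- the ground set
  obtain ⟨ψ, hψ1, hψ2⟩ := spl M.E (Cardinal.mk M.E) le_rfl
  let Ei : ι → Set α := fun i => {x | x ∈ M.E ∧ (ψ x).card < μ i}
  have hEi : ∀ x ∈ M.E, ∃ i, x ∈ Ei i := by
    intro x hx
    obtain ⟨i, hi⟩ := hcof _ (hψ1 x hx)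
    exact ⟨i, hx, hi⟩
  -- the step
  have hstep : ∀ (i : ι) (U : Set α), ∃ T : Set α, (U ⊆ M.E → Cardinal.mk U < Order.succ (μ i) →
      MatchingExtendable r (M.restrict (M.E \ U)) →
      (∀ a ∈ T, R i a ⊆ T) ∧ U ∪ Ei i ⊆ T ∧ T ⊆ M.E ∧ Cardinal.mk T < Order.succ (μ i) ∧
      MatchingExtendable r (M.restrict (T \ U))) := by
    intro i U
    by_cases h : U ⊆ M.E ∧ Cardinal.mk U < Order.succ (μ i) ∧
      MatchingExtendable r (M.restrict (M.E \ U))
    · obtain ⟨h1, h2, h3⟩ := h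
      obtain ⟨T, hT1, hT2, hT3, hT4, hT5⟩ := hSTEP α M r (Order.succ (μ i)) hr (hregμ i)
        (lt_of_le_of_lt (hμr i) (Order.lt_succ _)) hsc U h1 h2 h3 (Ei i) (fun x hx => hx.1)
        (Order.lt_succ_iff.2 (hψ2 (μ i))) {T | ∀ a ∈ T, R i a ⊆ T}
        (by
          intro 𝒮 h𝒮 a ha
          obtain ⟨S, hS, haS⟩ := ha
          exact (h𝒮 hS a haS).trans (Set.subset_sUnion_of_mem hS))
        (by
          intro T hT hTc
          obtain ⟨T', h5, h6, h7⟩ := hUCL α (Order.succ (μ i)) (hregμ i)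
            (lt_of_le_of_lt (hr0.trans (hμr i)) (Order.lt_succ _)) (R i) (hRc i) T hTc
          refine ⟨T' ∩ M.E, ?_, ?_, ?_, ?_⟩
          · intro a ha
            exact Set.subset_inter (h7 a ha.1) (hRE i a)
          · exact Set.subset_inter h5 hT
          · exact Set.inter_subset_right
          · exact lt_of_le_of_lt (Cardinal.mk_le_mk_of_subset Set.inter_subset_left) h6)
      exact ⟨T, fun _ _ _ => ⟨hT1, hT2, hT3, hT4, hT5⟩⟩
    · refine ⟨∅, fun h1 h2 h3 => absurd ⟨h1, h2, h3⟩ h⟩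
  choose st hst using hstep
  obtain ⟨T, hT⟩ : ∃ T : ι → Set α, ∀ i, T i = st i (⋃ j ∈ {j | j < i}, T j) := by
    refine ⟨WellFoundedLT.fix (motive := fun _ => Set α)
      (fun i rec => st i (⋃ j : {j // j < i}, rec j.1 j.2)), ?_⟩
    intro i
    rw [WellFoundedLT.fix_eq]
    congr 1
    ext x
    simp
  obtain ⟨U, hUd⟩ : ∃ U : ι → Set α, ∀ i, U i = ⋃ j ∈ {j | j < i}, T j := ⟨_, fun i => rfl⟩
  have hUm : ∀ i x, x ∈ U i ↔ ∃ j, j < i ∧ x ∈ T j := by
    intro i x
    rw [hUd i]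
    simp
  have main : ∀ i, (U i ⊆ M.E ∧ Cardinal.mk (U i) < Order.succ (μ i) ∧
      MatchingExtendable r (M.restrict (M.E \ U i))) ∧
      ((∀ a ∈ T i, R i a ⊆ T i) ∧ U i ∪ Ei i ⊆ T i ∧ T i ⊆ M.E ∧
      Cardinal.mk (T i) < Order.succ (μ i) ∧ MatchingExtendable r (M.restrict (T i \ U i))) := by
    intro i
    induction i using hwf.induction with
    | _ i ih =>
      have hUE : U i ⊆ M.E := by
        intro x hx
        obtain ⟨j, hj, hx⟩ := (hUm i x).1 hx
        exact (ih j hj).2.2.2.1 hx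
      have hUc : Cardinal.mk (U i) ≤ m i := by
        have h1 : U i = ⋃ j : {j // j < i}, T j.1 := by
          ext x
          rw [hUd i]
          simp
        rw [h1]
        by_cases hne : ∃ j, j < i
        · obtain ⟨j0, hj0⟩ := hne
          refine (Cardinal.mk_iUnion_le _).trans ?_
          have hsup : (⨆ j : {j // j < i}, Cardinal.mk (T j.1)) ≤ m i :=
            ciSup_le' fun j => (Order.lt_succ_iff.1 (ih j.1 j.2).2.2.2.2.1).trans (hμm i j.1 j.2)
          have hsub : Cardinal.mk {j // j < i} ≤ m i :=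
            ((Cardinal.mk_subtype_le _).trans (hμι j0)).trans (hμm i j0 hj0)
          exact (mul_le_mul' hsub hsup).trans (Cardinal.mul_eq_self (hm0 i)).le
        · have : IsEmpty {j // j < i} := ⟨fun j => hne ⟨j.1, j.2⟩⟩
          simp
      have hmonoT : ∀ j k, j ≤ k → k < i → T j ⊆ T k := by
        intro j k hjk hk
        rcases eq_or_lt_of_le hjk with rfl | h
        · exact subset_rfl
        · intro x hx
          exact (ih k hk).2.2.1 (Or.inl ((hUm k x).2 ⟨j, h, hx⟩))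
      have hgood : Good (Order.succ (m i)) M (U i) := by
        intro D hD hDc hne
        obtain ⟨a, haD, haU⟩ := hne
        obtain ⟨j, hj, haT⟩ := (hUm i a).1 haU
        have haE : a ∈ M.E := hUE haU
        obtain ⟨H, haH, hGH, hH⟩ := hf4 i a haE ⟨j, hj⟩
        intro x hx
        have hxH : x ∈ H := hGH D hD hDc ⟨a, haD, haH⟩ hx
        obtain ⟨k, hk, hxk⟩ := hH x hxH
        have hki : max j k < i := max_lt hj hk
        have h1 : a ∈ T (max j k) := hmonoT j _ (le_max_left _ _) hki haT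
        have h2 : x ∈ f i a (max j k) := hf2 i a haE k _ (le_max_right _ _) hxk
        have h3 : x ∈ R (max j k) a := by
          simp only [R, haE, if_true]
          exact Set.mem_iUnion.2 ⟨⟨i, hki⟩, h2⟩
        exact (hUm i x).2 ⟨max j k, hki, (ih _ hki).2.1 a h1 h3⟩
      have hUext : MatchingExtendable r (M.restrict (M.E \ U i)) :=
        hREM α M r (Order.succ (m i)) hr (hregm i) (lt_of_le_of_lt (hmr i) (Order.lt_succ _))
          hsc hext (U i) hUE (Order.lt_succ_iff.2 hUc) hgood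
      have hUc' : Cardinal.mk (U i) < Order.succ (μ i) := Order.lt_succ_iff.2 (hUc.trans (hmμ i))
      refine ⟨⟨hUE, hUc', hUext⟩, ?_⟩
      have := hst i (U i) hUE hUc' hUext
      rw [hUd i] at this ⊢
      rw [← hT i] at this
      exact this
  refine hFIL α M ι T ?_ ?_
  · apply Set.Subset.antisymm
    · exact Set.iUnion_subset fun i => (main i).2.2.2.1
    · intro x hx
      obtain ⟨i, hi⟩ := hEi x hx
      exact Set.mem_iUnion.2 ⟨i, (main i).2.2.1 (Or.inr hi)⟩
  · intro i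
    rw [← hUd i]
    refine hbelow (M.restrict (T i \ U i)) ?_ ?_ ?_
    · change Cardinal.mk (T i \ U i : Set α) < _
      refine lt_of_le_of_lt (Cardinal.mk_le_mk_of_subset Set.diff_subset) ?_
      exact lt_of_le_of_lt (Order.lt_succ_iff.1 (main i).2.2.2.2.1) (hμl i)
    · exact small_restrict hsc _ (Set.diff_subset.trans (main i).2.2.2.1)
    · exact (main i).2.2.2.2.2

end Pool.Agent.L7h51.KM
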