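import Mathlib
import Pool.Agent.L7h51.KM.Stm
import Pool.Agent.L7h51.KM.Sing
import Pool.Agent.L7h51.KM.Main
import Pool.Agent.L7h41.KM.Sk
import Pool.Agent.L7h41.KM.Step
import Pool.Agent.L7h60.KM.Stx
import Pool.Agent.L7h73.KM.Gr
import Pool.Agent.L7h29.KM.Del
import Pool.Agent.L7h29.KM.Ind
import Pool.Agent.L7h56.KM.Ds
import Pool.Agent.L7h56.KM.Rem
import Pool.Agent.L7h87.KM.Hull
import Pool.Agent.L7h87.KM.St
import Pool.Agent.L7h87.KM.St1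
import Pool.Agent.L7h53.KM.Fil
import Pool.Agent.L7h53.KM.Reg
import Pool.Agent.L7h65.KM.F3
import Pool.Agent.L7h65.KM.Rl
import Pool.Agent.L7h65.KM.Ucl
import Pool.Agent.L7h96.KM.F2

namespace Pool.Agent.L7h51.KM

universe u

theorem t_RL : S_RL.{u} := Pool.Agent.L7h65.KM.s_RL
theorem t_SK : S_SK.{u} := Pool.Agent.L7h41.KM.s_SK
theorem t_F2 : S_F2.{u} := Pool.Agent.L7h96.KM.s_F2
theorem t_F3 : S_F3.{u} := Pool.Agent.L7h65.KM.s_F3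
theorem t_DS : S_DS.{u} := Pool.Agent.L7h56.KM.s_DS t_RL t_SK
theorem t_REM : S_REM.{u} := Pool.Agent.L7h56.KM.s_REM t_F2
theorem t_ST1 : S_ST1.{u} := Pool.Agent.L7h87.KM.s_ST1 t_F2
theorem t_DEL : S_DEL.{u} := Pool.Agent.L7h29.KM.s_DEL
theorem t_IND : S_IND.{u} := Pool.Agent.L7h29.KM.s_IND t_SK
theorem t_STX : S_STX.{u} := Pool.Agent.L7h60.KM.s_STX t_RL t_DEL t_IND
theorem t_ST : S_ST.{u} := Pool.Agent.L7h87.KM.s_ST t_ST1 t_STX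
theorem t_HULL : S_HULL.{u} := Pool.Agent.L7h87.KM.s_HULL t_ST t_F3
theorem t_STEP : S_STEP.{u} := Pool.Agent.L7h41.KM.s_STEP t_DS
theorem t_GR : S_GR.{u} := Pool.Agent.L7h73.KM.s_GR
theorem t_FIL : S_FIL.{u} := Pool.Agent.L7h53.KM.s_FIL
theorem t_UCL : S_UCL.{u} := Pool.Agent.L7h65.KM.s_UCL
theorem t_REG : S_REG.{u} := Pool.Agent.L7h53.KM.s_REG t_REM t_HULL t_STEP t_FIL
theorem t_SING : S_SING.{u} := s_SING t_REM t_HULL t_STEP t_FIL t_UCL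
theorem t_MAIN : S_MAIN.{u} := s_MAIN t_GR t_REG t_SING

end Pool.Agent.L7h51.KM
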